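import Mathlib
import Pool.Agent.Q278.CT.E55b

/-!
# An alternating sum built from a Franel-type sequence

`n ∣ A(n)` for all `n ≥ 1`, and `A(p) ≡ 2 p (-1)^{(p+1)/2} (mod p²)` for every odd prime `p`.

Proof. Let `Λ = 1/z - (1+z)(x+2+1/x)` and `U_{a,b}(N) = CT[x^a z^b Λ^N]`, so `S_{N+3} = U_{0,0}(N)`.
Then `(-1)^n A(n) / n = w_n` with
`w_n = -U_{0,-2} + 4 U_{0,-1} + 2 U_{0,0} - 4 U_{1,-1} - 6 U_{1,0}` (at `N = n - 2`), an integer: the
relation `n² w_n + n (n-1) w_{n-1} = T_n` is a combination of the relations obtained from the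
vanishing of the constant terms of `x∂_x` and `z∂_z` of `x^a z^b Λ^{N+1}`. Modulo a prime `p`, only
one term of the binomial sums `U_{a,b}(p-2)` survives.
-/

set_option autoImplicit false

namespace Pool.Agent.Results.MP_e5500d_nt.BothParts

open Finset

/-- `S_n = ∑_{k=0}^{n-3} (-1)^k C(2k,k) C(n-3,k) C(k,n-3-k)` (the range has `n - 2` elements, none
for `n = 1, 2`). -/
def S (n : ℕ) : ℤ :=
  ∑ k ∈ range (n - 2), (-1) ^ k * (Nat.choose (2 * k) k : ℤ) * (Nat.choose (n - 3) k : ℤ) *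
    (Nat.choose k (n - 3 - k) : ℤ)

/-- `T_m = S_{m+2} + 12 S_{m+1} + 16 S_m`. -/
def T (m : ℕ) : ℤ := S (m + 2) + 12 * S (m + 1) + 16 * S m

/-- `A(N) = ∑_{k=1}^N (-1)^k T_k / k`. -/
def A (N : ℕ) : ℚ := ∑ k ∈ Icc 1 N, (-1) ^ k * (T k : ℚ) / k

/-- **Main result.** Q1: `A(n)` is `n` times an integer for every `n ≥ 1`. Q2: for every odd prime
`p`, `A(p) = 2 p (-1)^{(p+1)/2} + p² u` with an integer `u`. -/
theorem result :
    (∀ n : ℕ, 1 ≤ n → ∃ u : ℤ, A n = n * u) ∧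
    (∀ p : ℕ, p.Prime → Odd p → ∃ u : ℤ, A p = 2 * p * (-1) ^ ((p + 1) / 2) + (p : ℚ) ^ 2 * u) := by
  have hA : ∀ n, A n = Pool.Agent.Q278.CT.A n := by
    intro n
    induction n with
    | zero => simp [A, Pool.Agent.Q278.CT.A]
    | succ n ih =>
      have h1 : A (n + 1) = A n + (-1) ^ (n + 1) * (T (n + 1) : ℚ) / ((n + 1 : ℕ) : ℚ) := by
        unfold A
        rw [Finset.sum_Icc_succ_top (by omega)]
      have h2 : Pool.Agent.Q278.CT.A (n + 1) = Pool.Agent.Q278.CT.A n +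
          (-1) ^ (n + 1) * (T (n + 1) : ℚ) / ((n : ℚ) + 1) := by
        unfold Pool.Agent.Q278.CT.A
        rw [sum_range_succ]
        rfl
      rw [h1, h2, ih]
      push_cast
      rfl
  have hT1 : T 1 = 1 := by decide
  refine ⟨fun n hn => ?_, fun p hp hodd => ?_⟩
  · rcases Nat.lt_or_ge n 2 with h | h
    · obtain rfl : n = 1 := by omega
      refine ⟨-1, ?_⟩
      unfold A
      rw [Icc_self, sum_singleton, hT1]
      norm_num
    · obtain ⟨N, rfl⟩ : ∃ N, n = N + 2 := ⟨n - 2, by omega⟩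
      refine ⟨(-1) ^ N * Pool.Agent.Q278.CT.W N, ?_⟩
      rw [hA, Pool.Agent.Q278.CT.A_eq]
      push_cast
      ring
  · haveI : Fact p.Prime := ⟨hp⟩
    obtain ⟨m, hm⟩ := hodd
    have hp2 := hp.two_le
    have h2 : 2 < p := by omega
    have hW := Pool.Agent.Q278.CT.W_mod p h2 m hm
    have h0 : ((Pool.Agent.Q278.CT.W (p - 2) - 2 * (-1) ^ m : ℤ) : ZMod p) = 0 := by
      push_cast
      rw [hW, sub_self]
    rw [ZMod.intCast_zmod_eq_zero_iff_dvd] at h0
    obtain ⟨u, hu⟩ := h0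
    refine ⟨-u, ?_⟩
    have hpN : p = (p - 2) + 2 := by omega
    have e1 := Pool.Agent.Q278.CT.A_eq (p - 2)
    rw [← hpN] at e1
    rw [hA, e1, show (p + 1) / 2 = m + 1 by omega]
    have hs : (-1 : ℚ) ^ (p - 2) = -1 := by
      apply Odd.neg_one_pow
      exact ⟨m - 1, by omega⟩
    have hc : ((p - 2 : ℕ) : ℚ) + 2 = p := by
      rw [Nat.cast_sub hp2]; push_cast; ring
    have hu' : (Pool.Agent.Q278.CT.W (p - 2) : ℚ) = 2 * (-1) ^ m + p * u := by
      have : Pool.Agent.Q278.CT.W (p - 2) = 2 * (-1) ^ m + p * u := by linear_combination hu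
      rw [this]
      push_cast
      ring
    rw [hs, hc, hu']
    push_cast
    ring

end Pool.Agent.Results.MP_e5500d_nt.BothParts
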